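import Pool.Agent.R538.NB.Defs
import Pool.Agent.H656R2.AK.TQPoly

/-!
# The construction for quantified formulas, and a long queue of tokens of Left
-/

namespace Pool.Agent.R538.NB

theorem mv_apply {V : Type*} [DecidableEq V] (c : V → Option Bool) (u v x : V) :
    mv c u v x = if x = u then none else if x = v then c u else c x := by
  unfold mv
  simp only [Function.update_apply]

theorem Wins.iff {V : Type*} [DecidableEq V] {E : V → V → Prop} {p : Bool} {c : V → Option Bool} :
    Wins E p c ↔ ∃ u v, Legal E p c u v ∧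
      ∀ x y, Legal E (!p) (mv c u v) x y → Wins E p (mv (mv c u v) x y) := by
  constructor
  · rintro ⟨_, u, v, h, hr⟩
    exact ⟨u, v, h, hr⟩
  · rintro ⟨u, v, h, hr⟩
    exact Wins.intro c u v h hr

/-- The vertices. -/
inductive Nd
  | A (i : ℕ)
  | Lt (i : ℕ) (b : Bool)
  | B (i : ℕ)
  | E (i : ℕ) (b : Bool)
  | Y
  | Q (j : ℕ)
  | U (j : ℕ)
  | S
  deriving DecidableEq

variable (qs : List Bool) (cs : List (List (Bool × ℕ))) (K : ℕ)

/-- The edges. -/
def Ed : Nd → Nd → Prop
  | .Lt i _, .A j => i = j ∧ i < qs.length ∧ qs.getD i false = false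
  | .B i, .A j => i = j ∧ i < qs.length ∧ qs.getD i false = true
  | .E i _, .B j => i = j ∧ i < qs.length ∧ qs.getD i false = true
  | .Lt i b, .E j b' => i = j ∧ b = b' ∧ i < qs.length ∧ qs.getD i false = true
  | .A i, .Lt j _ => i = j + 1 ∧ j < qs.length
  | .Y, .A j => j = qs.length
  | .Q i, .Lt j _ => i = 0 ∧ j < qs.length
  | .Q i, .B j => i = 0 ∧ j < qs.length ∧ qs.getD j false = true
  | .Q i, .Q j => i = j + 1 ∧ i ≤ K
  | .Lt i b, .U j => i < qs.length ∧ j < cs.length ∧ (b, i) ∈ cs.getD j []
  | .U j, .S => j < cs.length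
  | _, _ => False

/-- The position in which Left has to fill the vertex `A i`; `val` gives the values of the
variables `j < i`. -/
def pos (i : ℕ) (val : ℕ → Bool) : Nd → Option Bool
  | .A j => if j < i then some true else if j = i then none
      else if j ≤ qs.length then some false else none
  | .Lt j b => if j < qs.length then (if j < i ∧ b ≠ val j then some false else some true) else none
  | .B j => if j < qs.length ∧ qs.getD j false = true then
      (if j < i then some false else some true) else none
  | .E j b => if j < qs.length ∧ qs.getD j false = true then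
      (if j < i ∧ b ≠ val j then some true else some false) else none
  | .Y => some true
  | .Q j => if j ≤ K then some true else none
  | .U j => if j < cs.length then some false else none
  | .S => none

variable {qs cs K}

/-- rank of a vertex -/
def rank (n : ℕ) : Nd → ℕ
  | .A i => 4 * i + 2
  | .Lt i _ => 4 * i + 5
  | .B i => 4 * i + 3
  | .E i _ => 4 * i + 4
  | .Y => 4 * n + 3
  | .Q _ => 0
  | .U _ => 1
  | .S => 0

/-- the vertices which are not in the queue -/
def Mn (n m : ℕ) : Finset Nd :=
  (Finset.range (n + 1)).image Nd.A ∪ ((Finset.range n) ×ˢ Finset.univ).image (fun p => Nd.Lt p.1 p.2) ∪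
    (Finset.range n).image Nd.B ∪ ((Finset.range n) ×ˢ Finset.univ).image (fun p => Nd.E p.1 p.2) ∪
    {Nd.Y, Nd.S} ∪ (Finset.range m).image Nd.U

theorem rank_lt {u v : Nd} (h : Ed qs cs K u v) (hu : ∀ j, u ≠ .Q j) :
    rank qs.length v < rank qs.length u ∧ u ∈ Mn qs.length cs.length ∧ v ∈ Mn qs.length cs.length := by
  have hQ := hu
  unfold Mn
  cases u <;> cases v <;> simp only [Ed] at h <;> simp [rank] at hQ ⊢ <;> omega

theorem sum_rank_le (n m : ℕ) : ∑ z ∈ Mn n m, rank n z ≤ (6 * n + m + 3) * (4 * n + 5) := by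
  have h1 : (Mn n m).card ≤ 6 * n + m + 3 := by
    unfold Mn
    refine (Finset.card_union_le _ _).trans ?_
    have h1 := Finset.card_image_le (s := Finset.range m) (f := Nd.U)
    have h2 := Finset.card_image_le (s := Finset.range (n + 1)) (f := Nd.A)
    have h3 := Finset.card_image_le (s := (Finset.range n) ×ˢ (Finset.univ : Finset Bool)) (f := fun p => Nd.Lt p.1 p.2)
    have h4 := Finset.card_image_le (s := (Finset.range n) ×ˢ (Finset.univ : Finset Bool)) (f := fun p => Nd.E p.1 p.2)
    have h5 := Finset.card_image_le (s := Finset.range n) (f := Nd.B)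
    have h6 : ({Nd.Y, Nd.S} : Finset Nd).card ≤ 2 := Finset.card_le_two
    simp only [Finset.card_range, Finset.card_product, Finset.card_univ, Fintype.card_bool] at h1 h2 h3 h4 h5
    have e1 := Finset.card_union_le ((Finset.range (n + 1)).image Nd.A)
      (((Finset.range n) ×ˢ Finset.univ).image (fun p => Nd.Lt p.1 p.2))
    have e2 := Finset.card_union_le ((Finset.range (n + 1)).image Nd.A ∪
      (((Finset.range n) ×ˢ Finset.univ).image (fun p => Nd.Lt p.1 p.2))) ((Finset.range n).image Nd.B)
    have e3 := Finset.card_union_le ((Finset.range (n + 1)).image Nd.A ∪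
      (((Finset.range n) ×ˢ Finset.univ).image (fun p => Nd.Lt p.1 p.2)) ∪ (Finset.range n).image Nd.B)
      (((Finset.range n) ×ˢ Finset.univ).image (fun p => Nd.E p.1 p.2))
    have e4 := Finset.card_union_le ((Finset.range (n + 1)).image Nd.A ∪
      (((Finset.range n) ×ˢ Finset.univ).image (fun p => Nd.Lt p.1 p.2)) ∪ (Finset.range n).image Nd.B ∪
      (((Finset.range n) ×ˢ Finset.univ).image (fun p => Nd.E p.1 p.2))) {Nd.Y, Nd.S}
    omega
  have h2 : ∀ z ∈ Mn n m, rank n z ≤ 4 * n + 5 := by
    intro z hz
    unfold Mn at hz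
    cases z <;> simp [rank] at hz ⊢ <;> omega
  refine (Finset.sum_le_card_nsmul _ _ _ h2).trans ?_
  rw [smul_eq_mul]
  exact Nat.mul_le_mul_right _ h1

/-- the potential of Right -/
def pot (n m : ℕ) (c : Nd → Option Bool) : ℕ :=
  ∑ z ∈ Mn n m, if c z = some false then rank n z else 0

theorem pot_le (n m : ℕ) (c : Nd → Option Bool) : pot n m c ≤ (6 * n + m + 3) * (4 * n + 5) := by
  refine le_trans ?_ (sum_rank_le n m)
  unfold pot
  refine Finset.sum_le_sum fun z _ => ?_
  split_ifs <;> omega

theorem pot_left {n m : ℕ} {c : Nd → Option Bool} {u v : Nd} (hu : c u = some true)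
    (hv : c v = none) : pot n m (mv c u v) = pot n m c := by
  unfold pot
  refine Finset.sum_congr rfl fun z _ => ?_
  rw [mv_apply]
  by_cases h1 : z = u
  · subst h1; simp [hu]
  · rw [if_neg h1]
    by_cases h2 : z = v
    · subst h2; simp [hu, hv]
    · rw [if_neg h2]

theorem pot_right {c : Nd → Option Bool} {u v : Nd} (hu : c u = some false)
    (hv : c v = none) (h : Ed qs cs K u v) (hQ : ∀ j, u ≠ .Q j) :
    pot qs.length cs.length (mv c u v) < pot qs.length cs.length c := by
  obtain ⟨h1, h2, h3⟩ := rank_lt h hQ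
  have huv : u ≠ v := by rintro rfl; rw [hu] at hv; exact absurd hv (by simp)
  have key : ∀ z, (if mv c u v z = some false then rank qs.length z else 0) +
      (if z = u then rank qs.length u else 0) =
      (if c z = some false then rank qs.length z else 0) +
      (if z = v then rank qs.length v else 0) := by
    intro z
    rw [mv_apply]
    by_cases e1 : z = u
    · subst e1
      simp [hu, huv]
    · by_cases e2 : z = v
      · subst e2
        simp [e1, hu, hv]
      · simp [e1, e2]
  have hs : pot qs.length cs.length (mv c u v) + rank qs.length u =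
      pot qs.length cs.length c + rank qs.length v := by
    have := Finset.sum_congr (rfl : Mn qs.length cs.length = _) (fun z _ => key z)
    rw [Finset.sum_add_distrib, Finset.sum_add_distrib, Finset.sum_ite_eq', if_pos h2,
      Finset.sum_ite_eq', if_pos h3] at this
    exact this
  omega

/-- When a vertex of the queue is vacant, Left wins. -/
theorem shift (N : ℕ) : ∀ (c : Nd → Option Bool) (j : ℕ), pot qs.length cs.length c ≤ N → j + N < K →
    c (.Q j) = none → (∀ l, j < l → l ≤ K → c (.Q l) = some true) → (∀ l, c (.Q l) ≠ some false) →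
    Wins (Ed qs cs K) true c := by
  induction N with
  | zero =>
    intro c j h1 h2 h3 h4 h5
    refine Wins.intro c (.Q (j + 1)) (.Q j) ⟨h4 _ (by omega) (by omega), h3, rfl, by omega⟩ ?_
    rintro x y ⟨hx, hy, hE⟩
    exfalso
    have hxQ : ∀ l, x ≠ .Q l := by
      rintro l rfl
      rw [mv_apply] at hx
      split_ifs at hx with e1 e2
      · rw [h4 _ (by omega) (by omega)] at hx
        exact absurd hx (by simp)
      · exact h5 _ hx
    have h6 := pot_right hx hy hE hxQ
    rw [pot_left (h4 _ (by omega) (by omega)) h3] at h6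
    omega
  | succ N ih =>
    intro c j h1 h2 h3 h4 h5
    refine Wins.intro c (.Q (j + 1)) (.Q j) ⟨h4 _ (by omega) (by omega), h3, rfl, by omega⟩ ?_
    rintro x y ⟨hx, hy, hE⟩
    have hxQ : ∀ l, x ≠ .Q l := by
      rintro l rfl
      rw [mv_apply] at hx
      split_ifs at hx with e1 e2
      · rw [h4 _ (by omega) (by omega)] at hx
        exact absurd hx (by simp)
      · exact h5 _ hx
    have hyQ : ∀ l, y ≠ .Q l := by
      rintro l rfl
      cases x <;> simp only [Ed] at hE
      exact hxQ _ rfl
    have h6 := pot_right hx hy hE hxQ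
    rw [pot_left (h4 _ (by omega) (by omega)) h3] at h6
    have e : ∀ l, mv (mv c (.Q (j + 1)) (.Q j)) x y (.Q l) = mv c (.Q (j + 1)) (.Q j) (.Q l) := by
      intro l
      rw [mv_apply, if_neg (hxQ l).symm, if_neg (hyQ l).symm]
    refine ih _ (j + 1) (by omega) (by omega) ?_ ?_ ?_
    · rw [e, mv_apply, if_pos rfl]
    · intro l h7 h8
      rw [e, mv_apply, if_neg (by simp; omega), if_neg (by simp; omega)]
      exact h4 l (by omega) h8
    · intro l
      rw [e, mv_apply]
      split_ifs with e1 e2
      · simp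
      · rw [h4 _ (by omega) (by omega)]; simp
      · exact h5 l

/-- When a vertex next to the queue is vacant and Left is to move, Left wins. -/
theorem giant (hK : (6 * qs.length + cs.length + 3) * (4 * qs.length + 5) < K)
    {c : Nd → Option Bool} {w : Nd} (hw : c w = none) (hE : Ed qs cs K (.Q 0) w) (hwQ : ∀ l, w ≠ .Q l)
    (hQ : ∀ l ≤ K, c (.Q l) = some true) (hQ2 : ∀ l, c (.Q l) ≠ some false) :
    Wins (Ed qs cs K) true c := by
  have h0 := hQ 0 (Nat.zero_le _)
  refine Wins.intro c (.Q 0) w ⟨h0, hw, hE⟩ ?_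
  rintro x y ⟨hx, hy, hE'⟩
  have hxQ : ∀ l, x ≠ .Q l := by
    rintro l rfl
    rw [mv_apply] at hx
    split_ifs at hx with e1 e2
    · exact hwQ _ e2.symm
    · exact hQ2 _ hx
  have hyQ : ∀ l, y ≠ .Q l := by
    rintro l rfl
    cases x <;> simp only [Ed] at hE'
    exact hxQ _ rfl
  have h6 := pot_right hx hy hE' hxQ
  rw [pot_left h0 hw] at h6
  have h7 := pot_le qs.length cs.length c
  have e : ∀ l, mv (mv c (.Q 0) w) x y (.Q l) = mv c (.Q 0) w (.Q l) := by
    intro l
    rw [mv_apply, if_neg (hxQ l).symm, if_neg (hyQ l).symm]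
  refine shift _ _ 0 le_rfl (by omega) ?_ ?_ ?_
  · rw [e, mv_apply, if_pos rfl]
  · intro l h8 h9
    rw [e, mv_apply, if_neg (by simp; omega), if_neg (hwQ l).symm]
    exact hQ l h9
  · intro l
    rw [e, mv_apply]
    split_ifs with e1 e2
    · simp
    · exact absurd e2.symm (hwQ l)
    · exact hQ2 l

end Pool.Agent.R538.NB
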