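import Pool.Agent.H623R2.PS.Defs

/-!
# Node Blocking on acyclic directed graphs
-/

namespace Pool.Agent.R538.NB

/-- The position after the token on `u` has been moved to `v`. -/
def mv {V : Type*} [DecidableEq V] (c : V → Option Bool) (u v : V) : V → Option Bool :=
  Function.update (Function.update c v (c u)) u none

/-- The legal moves of Node Blocking on the directed graph with the edge relation `E`. In the
position `c`, the vertex `v` carries no token if `c v = none`, a token of Left if `c v = some true`
and a token of Right if `c v = some false`. The player `p` (`true` is Left, `false` is Right) may
move the token on `u` to `v` if it is one of his tokens, there is no token on `v`, and `(u, v)` is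
an edge. -/
def Legal {V : Type*} (E : V → V → Prop) (p : Bool) (c : V → Option Bool) (u v : V) : Prop :=
  c u = some p ∧ c v = none ∧ E u v

/-- The player `p`, who is to move in the position `c`, wins Node Blocking (normal play): he has a
legal move such that, whatever legal move the opponent makes next, he again wins from the position
which has arisen (in particular, if the opponent has no legal move). -/
inductive Wins {V : Type*} [DecidableEq V] (E : V → V → Prop) (p : Bool) :
    (V → Option Bool) → Prop
  | intro (c : V → Option Bool) (u v : V) (h : Legal E p c u v)
      (reply : ∀ x y, Legal E (!p) (mv c u v) x y → Wins E p (mv (mv c u v) x y)) : Wins E p c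

/-- The code of an instance: the adjacency matrix of the graph (a list of rows), the list of the
contents of the vertices, and the player to move. -/
noncomputable def code {n : ℕ} (E : Fin n → Fin n → Prop) (c : Fin n → Option Bool) (p : Bool) :
    List (List Bool) × List (Option Bool) × Bool :=
  open Classical in
  (List.ofFn fun i => List.ofFn fun j => decide (E i j), List.ofFn c, p)

/-- The decision problem NB-DAG: given an acyclic directed graph, the positions and owners of all
tokens and the player to move, does the player to move have a winning strategy in Node Blocking? -/
def NBDag (x : List (List Bool) × List (Option Bool) × Bool) : Prop :=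
  ∃ (n : ℕ) (E : Fin n → Fin n → Prop) (c : Fin n → Option Bool) (p : Bool),
    (∀ v, ¬ Relation.TransGen E v v) ∧ code E c p = x ∧ Wins E p c

end Pool.Agent.R538.NB
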