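import Pool.Agent.R538.NB.Core

/-!
# Left wins the constructed game iff the quantified formula is true
-/

namespace Pool.Agent.R538.NB

open Pool.Agent.H656R2.AK Pool.Agent.H623R2.PS

variable {qs : List Bool} {cs : List (List (Bool × ℕ))} {K : ℕ}

theorem pos_Q {i : ℕ} {val : ℕ → Bool} {l : ℕ} (h : l ≤ K) : pos qs cs K i val (.Q l) = some true := by
  simp [pos, h]

theorem pos_Q2 {i : ℕ} {val : ℕ → Bool} (l : ℕ) : pos qs cs K i val (.Q l) ≠ some false := by
  simp only [pos]
  split_ifs <;> simp

/-- the next position, existential variable -/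
theorem pos_ex {i : ℕ} {val : ℕ → Bool} {b : Bool} (hi : i < qs.length) (hq : qs.getD i false = false) :
    mv (mv (pos qs cs K i val) (.Lt i b) (.A i)) (.A (i + 1)) (.Lt i b) =
      pos qs cs K (i + 1) (Function.update val i (!b)) := by
  have hq' : qs[i] = false := by
    rw [← hq, List.getD_eq_getElem?_getD, List.getElem?_eq_getElem hi, Option.getD_some]
  funext z
  simp only [mv_apply]
  cases z with
  | A j =>
    simp only [pos, Nd.A.injEq, reduceCtorEq, if_false]
    by_cases h1 : j = i + 1
    · subst h1; simp
    · by_cases h2 : j = i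
      · subst h2; simp [hi]
      · have e2 : (j < i + 1) ↔ (j < i) := by omega
        simp only [h1, h2, if_false, e2]
  | Lt j b' =>
    by_cases h1 : j = i
    · subst h1
      by_cases h2 : b' = b
      · subst h2
        simp [pos, hi]
      · have h3 : b' = !b := by revert h2; cases b <;> cases b' <;> simp
        subst h3
        simp [pos, hi]
    · have e : (Function.update val i (!b)) j = val j := Function.update_of_ne h1 _ _
      simp only [pos, e, Nd.Lt.injEq, h1, false_and, reduceCtorEq, if_false]
      have e2 : (j < i + 1) ↔ (j < i) := by omega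
      simp only [e2]
  | B j =>
    simp only [pos, reduceCtorEq, if_false]
    by_cases h1 : j = i
    · subst h1
      simp [hi, hq']
    · have e2 : (j < i + 1) ↔ (j < i) := by omega
      simp only [e2]
  | E j b' =>
    simp only [pos, reduceCtorEq, if_false]
    by_cases h1 : j = i
    · subst h1
      simp [hi, hq']
    · have e : (Function.update val i (!b)) j = val j := Function.update_of_ne h1 _ _
      have e2 : (j < i + 1) ↔ (j < i) := by omega
      simp only [e2, e]
  | Y => simp [pos]
  | Q j => simp [pos]
  | U j => simp [pos]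
  | S => simp [pos]

/-- the next position, universal variable -/
theorem pos_all {i : ℕ} {val : ℕ → Bool} {b : Bool} (hi : i < qs.length) (hq : qs.getD i false = true) :
    mv (mv (mv (mv (pos qs cs K i val) (.B i) (.A i)) (.E i b) (.B i)) (.Lt i b) (.E i b))
      (.A (i + 1)) (.Lt i b) = pos qs cs K (i + 1) (Function.update val i (!b)) := by
  have hq' : qs[i] = true := by
    rw [← hq, List.getD_eq_getElem?_getD, List.getElem?_eq_getElem hi, Option.getD_some]
  funext z
  simp only [mv_apply]
  cases z with
  | A j =>
    simp only [pos, Nd.A.injEq, reduceCtorEq, if_false]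
    by_cases h1 : j = i + 1
    · subst h1; simp
    · by_cases h2 : j = i
      · subst h2; simp [hi, hq']
      · have e2 : (j < i + 1) ↔ (j < i) := by omega
        simp only [h1, h2, if_false, e2]
  | Lt j b' =>
    by_cases h1 : j = i
    · subst h1
      by_cases h2 : b' = b
      · subst h2
        simp [pos, hi]
      · have h3 : b' = !b := by revert h2; cases b <;> cases b' <;> simp
        subst h3
        simp [pos, hi]
    · have e : (Function.update val i (!b)) j = val j := Function.update_of_ne h1 _ _
      simp only [pos, e, Nd.Lt.injEq, h1, false_and, reduceCtorEq, if_false]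
      have e2 : (j < i + 1) ↔ (j < i) := by omega
      simp only [e2]
  | B j =>
    by_cases h1 : j = i
    · subst h1
      simp [pos, hq', hi]
    · have e2 : (j < i + 1) ↔ (j < i) := by omega
      simp [pos, h1, e2]
  | E j b' =>
    by_cases h1 : j = i
    · subst h1
      by_cases h2 : b' = b
      · subst h2
        simp [pos, hi, hq']
      · have h3 : b' = !b := by revert h2; cases b <;> cases b' <;> simp
        subst h3
        simp [pos, hi, hq']
    · have e : (Function.update val i (!b)) j = val j := Function.update_of_ne h1 _ _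
      have e2 : (j < i + 1) ↔ (j < i) := by omega
      simp [pos, h1, e2, e]
  | Y => simp [pos]
  | Q j => simp [pos]
  | U j => simp [pos]
  | S => simp [pos]

/-- A turn of Right at which he has to fill the vertex `w`. -/
theorem right_turn (hK : (6 * qs.length + cs.length + 3) * (4 * qs.length + 5) < K)
    {c : Nd → Option Bool} {w : Nd} (hw : c w = none) (hE : Ed qs cs K (.Q 0) w) (hwQ : ∀ l, w ≠ .Q l)
    (hQ : ∀ l ≤ K, c (.Q l) = some true) (hQ2 : ∀ l, c (.Q l) ≠ some false)
    (hvac : ∀ x y, c y = none → c x = some false → Ed qs cs K x y → y = w ∨ y = .S)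
    (fill : ∀ x, c x = some false → Ed qs cs K x w → Wins (Ed qs cs K) true (mv c x w)) :
    ∀ x y, Legal (Ed qs cs K) (!true) c x y → Wins (Ed qs cs K) true (mv c x y) := by
  rintro x y ⟨hx, hy, hxy⟩
  rcases hvac x y hy hx hxy with rfl | rfl
  · exact fill x hx hxy
  · have hU : ∃ j, x = .U j := by
      cases x <;> simp only [Ed] at hxy
      exact ⟨_, rfl⟩
    obtain ⟨j, rfl⟩ := hU
    have h1 : w ≠ .U j := by rintro rfl; simp only [Ed] at hE
    have h2 : w ≠ .S := by rintro rfl; simp only [Ed] at hE
    refine giant hK (w := w) ?_ hE hwQ ?_ ?_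
    · rw [mv_apply, if_neg h1, if_neg h2]
      exact hw
    · intro l hl
      rw [mv_apply, if_neg (by simp), if_neg (by simp)]
      exact hQ l hl
    · intro l
      rw [mv_apply, if_neg (by simp), if_neg (by simp)]
      exact hQ2 l

/-- the value of the rest of the formula -/
def tv (qs : List Bool) (cs : List (List (Bool × ℕ))) (i : ℕ) (val : ℕ → Bool) : Bool :=
  evq (qs.drop i) (fun u => evc ((List.range i).map val ++ u) cs)

theorem tv_succ {i : ℕ} {val : ℕ → Bool} (hi : i < qs.length) :
    tv qs cs i val = bif qs.getD i false then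
      tv qs cs (i + 1) (Function.update val i false) && tv qs cs (i + 1) (Function.update val i true)
      else tv qs cs (i + 1) (Function.update val i false) || tv qs cs (i + 1) (Function.update val i true) := by
  have h1 : ∀ b : Bool, (List.range (i + 1)).map (Function.update val i b) =
      (List.range i).map val ++ [b] := by
    intro b
    rw [List.range_succ, List.map_append, List.map_singleton, Function.update_self]
    congr 1
    refine List.map_congr_left fun j hj => ?_
    exact Function.update_of_ne (by have := List.mem_range.1 hj; omega) _ _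
  have h2 : qs.getD i false = qs[i] := by
    rw [List.getD_eq_getElem?_getD, List.getElem?_eq_getElem hi, Option.getD_some]
  unfold tv
  rw [List.drop_eq_getElem_cons hi, evq, h2, h1, h1]
  simp only [List.append_assoc, List.singleton_append]

theorem tv_last (val : ℕ → Bool) (hwf : ∀ c ∈ cs, ∀ l ∈ c, l.2 < qs.length) :
    tv qs cs qs.length val = true ↔ ∀ j < cs.length, ∃ b l, (b, l) ∈ cs.getD j [] ∧ l < qs.length ∧ val l = b := by
  unfold tv
  rw [List.drop_length, evq, List.append_nil]
  unfold evc
  rw [List.all_eq_true]
  have h1 : ∀ l < qs.length, ((List.range qs.length).map val).getD l false = val l := by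
    intro l hl
    rw [List.getD_eq_getElem?_getD, List.getElem?_map, List.getElem?_range hl]
    rfl
  constructor
  · intro h j hj
    have hm : cs.getD j [] ∈ cs := by
      rw [List.getD_eq_getElem?_getD, List.getElem?_eq_getElem hj, Option.getD_some]
      exact List.getElem_mem hj
    have h2 := h _ hm
    rw [List.any_eq_true] at h2
    obtain ⟨⟨b, l⟩, h3, h4⟩ := h2
    have h5 := hwf _ hm _ h3
    simp only at h4 h5
    rw [h1 l h5] at h4
    exact ⟨b, l, h3, h5, by simpa using h4⟩
  · intro h c hc
    obtain ⟨j, hj, rfl⟩ := List.getElem_of_mem hc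
    obtain ⟨b, l, h2, h3, h4⟩ := h j hj
    rw [List.getD_eq_getElem?_getD, List.getElem?_eq_getElem hj, Option.getD_some] at h2
    rw [List.any_eq_true]
    refine ⟨(b, l), h2, ?_⟩
    simp only
    rw [h1 l h3, h4]
    simp

/-- the vacancies of a position -/
theorem pos_vac {i : ℕ} {val : ℕ → Bool} {x y : Nd} (h : pos qs cs K i val y = none)
    (hE : Ed qs cs K x y) : y = .A i ∨ y = .S := by
  cases y with
  | A j =>
    by_cases h1 : j = i
    · exact Or.inl (by rw [h1])
    · exfalso
      have h2 : j ≤ qs.length := by cases x <;> simp only [Ed] at hE <;> omega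
      simp only [pos, h1, h2, if_false, if_true] at h
      split_ifs at h
  | Lt j b =>
    exfalso
    have h2 : j < qs.length := by cases x <;> simp only [Ed] at hE <;> omega
    simp only [pos, h2, if_true] at h
    split_ifs at h
  | B j =>
    exfalso
    have h2 : j < qs.length ∧ qs.getD j false = true := by
      cases x <;> simp only [Ed] at hE
      · obtain ⟨rfl, h1, h2⟩ := hE; exact ⟨h1, h2⟩
      · exact hE.2
    rw [pos, if_pos h2] at h
    split_ifs at h
  | E j b =>
    exfalso
    have h2 : j < qs.length ∧ qs.getD j false = true := by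
      cases x <;> simp only [Ed] at hE
      obtain ⟨rfl, -, h1, h2⟩ := hE; exact ⟨h1, h2⟩
    rw [pos, if_pos h2] at h
    split_ifs at h
  | Y => cases x <;> simp only [Ed] at hE
  | Q j =>
    exfalso
    have h2 : j ≤ K := by cases x <;> simp only [Ed] at hE; omega
    simp only [pos, h2, if_true] at h
    exact absurd h (by simp)
  | U j =>
    exfalso
    have h2 : j < cs.length := by cases x <;> simp only [Ed] at hE; exact hE.2.1
    simp only [pos, h2, if_true] at h
    exact absurd h (by simp)
  | S => exact Or.inr rfl

/-- the vacancies after a move -/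
theorem mv_vac {c : Nd → Option Bool} {u v y : Nd} (h : mv c u v y = none) (hu : c u ≠ none) :
    y = u ∨ (y ≠ v ∧ c y = none) := by
  rw [mv_apply] at h
  split_ifs at h with h1 h2
  · exact Or.inl h1
  · exact absurd h hu
  · exact Or.inr ⟨h2, h⟩

theorem win_true (hK : (6 * qs.length + cs.length + 3) * (4 * qs.length + 5) < K)
    (hwf : ∀ c ∈ cs, ∀ l ∈ c, l.2 < qs.length) (k : ℕ) : ∀ (i : ℕ) (val : ℕ → Bool),
    i + k = qs.length → tv qs cs i val = true → Wins (Ed qs cs K) true (pos qs cs K i val) := by
  induction k with
  | zero =>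
    intro i val hi ht
    obtain rfl : i = qs.length := by omega
    rw [tv_last val hwf] at ht
    refine Wins.intro _ .Y (.A qs.length) ⟨rfl, by simp [pos], rfl⟩ ?_
    rintro x y ⟨hx, hy, hxy⟩
    have hU : ∃ j < cs.length, x = .U j ∧ y = .S := by
      rcases mv_vac hy (by simp [pos]) with rfl | ⟨h2, hy⟩
      · cases x <;> simp only [Ed] at hxy
      · rcases pos_vac hy hxy with h | rfl
        · exact absurd h h2
        · cases x <;> simp only [Ed] at hxy
          exact ⟨_, hxy, rfl, rfl⟩
    obtain ⟨j, hj, rfl, rfl⟩ := hU
    obtain ⟨b, l, h1, h2, h3⟩ := ht j hj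
    refine Wins.intro _ (.Lt l b) (.U j) ⟨?_, ?_, h2, hj, h1⟩ ?_
    · simp [mv_apply, pos, h2, h3]
    · simp [mv_apply]
    rintro x y ⟨hx', hy', hxy'⟩
    have hQx : ∀ l, x ≠ .Q l := by
      rintro l rfl
      simp only [mv_apply, reduceCtorEq, if_false] at hx'
      exact pos_Q2 l hx'
    have hQy : ∀ l, y ≠ .Q l := by
      rintro l rfl
      cases x <;> simp only [Ed] at hxy'
      exact hQx _ rfl
    have hyL : y ≠ .Lt l b := by
      rintro rfl
      cases x <;> simp only [Ed] at hxy'
      · obtain ⟨rfl, -⟩ := hxy'
        simp only [mv_apply, Nd.A.injEq, reduceCtorEq, if_false] at hx'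
        by_cases h4 : l + 1 = qs.length
        · simp [h4, pos] at hx'
        · rw [if_neg h4] at hx'
          simp only [pos] at hx'
          rw [if_pos (by omega)] at hx'
          simp at hx'
      · exact hQx _ rfl
    refine giant hK (w := .Lt l b) ?_ ⟨rfl, h2⟩ (by simp) ?_ ?_
    · rw [mv_apply]
      by_cases h4 : (.Lt l b : Nd) = x
      · rw [if_pos h4]
      · rw [if_neg h4, if_neg (Ne.symm hyL), mv_apply, if_pos rfl]
    · intro l' hl'
      rw [mv_apply, if_neg (hQx l').symm, if_neg (hQy l').symm]
      simp only [mv_apply, reduceCtorEq, if_false]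
      exact pos_Q hl'
    · intro l'
      rw [mv_apply, if_neg (hQx l').symm, if_neg (hQy l').symm]
      simp only [mv_apply, reduceCtorEq, if_false]
      exact pos_Q2 l'
  | succ k ih =>
    intro i val hi ht
    have hin : i < qs.length := by omega
    have hqq : qs.getD i false = qs[i] := by
      rw [List.getD_eq_getElem?_getD, List.getElem?_eq_getElem hin, Option.getD_some]
    rw [tv_succ hin] at ht
    cases hq : qs.getD i false with
    | false =>
      have hq' : qs[i] = false := by rw [← hqq, hq]
      rw [hq] at ht
      have hb : ∃ b, tv qs cs (i + 1) (Function.update val i b) = true := by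
        simp only [cond_false, Bool.or_eq_true] at ht
        rcases ht with h | h
        · exact ⟨_, h⟩
        · exact ⟨_, h⟩
      obtain ⟨b, hb⟩ := hb
      refine Wins.intro _ (.Lt i (!b)) (.A i) ⟨by simp [pos, hin], by simp [pos], rfl, hin, hq⟩ ?_
      refine right_turn hK (w := .Lt i (!b)) (by simp [mv_apply]) ⟨rfl, hin⟩ (by simp) ?_ ?_ ?_ ?_
      · intro l hl
        simp only [mv_apply, reduceCtorEq, if_false]
        exact pos_Q hl
      · intro l
        simp only [mv_apply, reduceCtorEq, if_false]
        exact pos_Q2 l
      · intro x y hy hx hxy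
        rcases mv_vac hy (by simp [pos, hin, hq']) with h1 | ⟨h2, hy⟩
        · exact Or.inl h1
        · rcases pos_vac hy hxy with h | h
          · exact absurd h h2
          · exact Or.inr h
      · intro x hx hxw
        have hxA : x = .A (i + 1) := by
          cases x <;> simp only [Ed] at hxw
          · rw [hxw.1]
          · simp only [mv_apply, reduceCtorEq, if_false] at hx
            exact absurd hx (pos_Q2 _)
        subst hxA
        rw [pos_ex hin hq, Bool.not_not]
        exact ih (i + 1) _ (by omega) hb
    | true =>
      have hq' : qs[i] = true := by rw [← hqq, hq]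
      rw [hq] at ht
      have hb : ∀ b, tv qs cs (i + 1) (Function.update val i b) = true := by
        simp only [cond_true, Bool.and_eq_true] at ht
        intro b
        cases b
        · exact ht.1
        · exact ht.2
      refine Wins.intro _ (.B i) (.A i) ⟨by simp [pos, hin, hq'], by simp [pos], rfl, hin, hq⟩ ?_
      refine right_turn hK (w := .B i) (by simp [mv_apply]) ⟨rfl, hin, hq⟩ (by simp) ?_ ?_ ?_ ?_
      · intro l hl
        simp only [mv_apply, reduceCtorEq, if_false]
        exact pos_Q hl
      · intro l
        simp only [mv_apply, reduceCtorEq, if_false]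
        exact pos_Q2 l
      · intro x y hy hx hxy
        rcases mv_vac hy (by simp [pos, hin, hq']) with h1 | ⟨h2, hy⟩
        · exact Or.inl h1
        · rcases pos_vac hy hxy with h | h
          · exact absurd h h2
          · exact Or.inr h
      · intro x hx hxw
        have hxE : ∃ b, x = .E i b := by
          cases x <;> simp only [Ed] at hxw
          · rw [hxw.1]
            exact ⟨_, rfl⟩
          · simp only [mv_apply, reduceCtorEq, if_false] at hx
            exact absurd hx (pos_Q2 _)
        obtain ⟨b, rfl⟩ := hxE
        refine Wins.intro _ (.Lt i b) (.E i b) ⟨?_, ?_, rfl, rfl, hin, hq⟩ ?_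
        · simp [mv_apply, pos, hin]
        · simp [mv_apply]
        refine right_turn hK (w := .Lt i b) (by simp [mv_apply]) ⟨rfl, hin⟩ (by simp) ?_ ?_ ?_ ?_
        · intro l hl
          simp only [mv_apply, reduceCtorEq, if_false]
          exact pos_Q hl
        · intro l
          simp only [mv_apply, reduceCtorEq, if_false]
          exact pos_Q2 l
        · intro x y hy hx hxy
          rcases mv_vac hy (by simp [mv_apply, pos, hin]) with h1 | ⟨h2, hy⟩
          · exact Or.inl h1
          rcases mv_vac hy (by simp [mv_apply, pos, hin, hq']) with h1 | ⟨h3, hy⟩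
          · exact absurd h1 h2
          rcases mv_vac hy (by simp [pos, hin, hq']) with h1 | ⟨h4, hy⟩
          · exact absurd h1 h3
          rcases pos_vac hy hxy with h | h
          · exact absurd h h4
          · exact Or.inr h
        · intro x hx hxw
          have hxA : x = .A (i + 1) := by
            cases x <;> simp only [Ed] at hxw
            · rw [hxw.1]
            · simp only [mv_apply, reduceCtorEq, if_false] at hx
              exact absurd hx (pos_Q2 _)
          subst hxA
          rw [pos_all hin hq]
          exact ih (i + 1) _ (by omega) (hb _)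

/-- the moves of Left in a position -/
theorem left_moves {i : ℕ} {val : ℕ → Bool} (hi : i ≤ qs.length) {x y : Nd}
    (h : Legal (Ed qs cs K) true (pos qs cs K i val) x y) :
    y = .A i ∧ ((i < qs.length ∧ qs.getD i false = false ∧ ∃ b, x = .Lt i b) ∨
      (i < qs.length ∧ qs.getD i false = true ∧ x = .B i) ∨ (i = qs.length ∧ x = .Y)) := by
  obtain ⟨hx, hy, hxy⟩ := h
  rcases pos_vac hy hxy with rfl | rfl
  · refine ⟨rfl, ?_⟩
    cases x <;> simp only [Ed] at hxy
    · obtain ⟨rfl, h1, h2⟩ := hxy
      exact Or.inl ⟨h1, h2, _, rfl⟩
    · obtain ⟨rfl, h1, h2⟩ := hxy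
      exact Or.inr (Or.inl ⟨h1, h2, rfl⟩)
    · exact Or.inr (Or.inr ⟨hxy, rfl⟩)
  · exfalso
    cases x <;> simp only [Ed] at hxy
    simp only [pos, hxy, if_true] at hx
    exact absurd hx (by simp)

theorem lose_false (hwf : ∀ c ∈ cs, ∀ l ∈ c, l.2 < qs.length) (k : ℕ) : ∀ (i : ℕ) (val : ℕ → Bool),
    i + k = qs.length → tv qs cs i val = false → ¬ Wins (Ed qs cs K) true (pos qs cs K i val) := by
  induction k with
  | zero =>
    intro i val hi ht hW
    obtain rfl : i = qs.length := by omega
    rw [Wins.iff] at hW
    obtain ⟨u, v, hl, hr⟩ := hW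
    obtain ⟨rfl, h1⟩ := left_moves le_rfl hl
    obtain rfl : u = .Y := by
      rcases h1 with ⟨h, -⟩ | ⟨h, -⟩ | ⟨-, h⟩
      · omega
      · omega
      · exact h
    have h2 : ¬ ∀ j < cs.length, ∃ b l, (b, l) ∈ cs.getD j [] ∧ l < qs.length ∧ val l = b := by
      rw [← tv_last val hwf, ht]
      simp
    push Not at h2
    obtain ⟨j, hj, h2⟩ := h2
    have h3 := hr (.U j) .S ⟨by simp [mv_apply, pos, hj], by simp [mv_apply, pos], hj⟩
    rw [Wins.iff] at h3
    obtain ⟨x, y, ⟨hx, hy, hxy⟩, -⟩ := h3
    rcases mv_vac hy (by simp [mv_apply, pos, hj]) with rfl | ⟨e2, hy⟩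
    · cases x <;> simp only [Ed] at hxy
      rename_i l b
      simp only [mv_apply, reduceCtorEq, if_false] at hx
      have h4 := h2 b l hxy.2.2 hxy.1
      simp only [pos, hxy.1, if_true] at hx
      rw [if_pos ⟨trivial, Ne.symm h4⟩] at hx
      exact absurd hx (by simp)
    · rcases mv_vac hy (by simp [pos]) with rfl | ⟨e4, hy⟩
      · cases x <;> simp only [Ed] at hxy
      · rcases pos_vac hy hxy with h | h
        · exact e4 h
        · exact e2 h
  | succ k ih =>
    intro i val hi ht hW
    have hin : i < qs.length := by omega
    rw [tv_succ hin] at ht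
    rw [Wins.iff] at hW
    obtain ⟨u, v, hl, hr⟩ := hW
    obtain ⟨rfl, h1⟩ := left_moves (by omega) hl
    rcases h1 with ⟨-, hq, b, rfl⟩ | ⟨-, hq, rfl⟩ | ⟨h, -⟩
    · rw [hq] at ht
      have hb : ∀ b, tv qs cs (i + 1) (Function.update val i b) = false := by
        simp only [cond_false, Bool.or_eq_false_iff] at ht
        intro b
        cases b
        · exact ht.1
        · exact ht.2
      have h2 := hr (.A (i + 1)) (.Lt i b) ⟨by simp [mv_apply, pos, hin], by simp [mv_apply],
        rfl, hin⟩
      rw [pos_ex hin hq] at h2
      exact ih (i + 1) _ (by omega) (hb _) h2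
    · have hq' : qs[i] = true := by
        rw [← hq, List.getD_eq_getElem?_getD, List.getElem?_eq_getElem hin, Option.getD_some]
      rw [hq] at ht
      have hb : ∃ b, tv qs cs (i + 1) (Function.update val i b) = false := by
        simp only [cond_true, Bool.and_eq_false_iff] at ht
        rcases ht with h | h
        · exact ⟨_, h⟩
        · exact ⟨_, h⟩
      obtain ⟨b, hb⟩ := hb
      have h2 := hr (.E i (!b)) (.B i) ⟨by simp [mv_apply, pos, hin, hq'], by simp [mv_apply],
        rfl, hin, hq⟩
      rw [Wins.iff] at h2
      obtain ⟨x, y, ⟨hx, hy, hxy⟩, hr2⟩ := h2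
      have hy' : y = .E i (!b) ∨ y = .S := by
        rcases mv_vac hy (by simp [mv_apply, pos, hin, hq']) with h1 | ⟨h3, hy⟩
        · exact Or.inl h1
        rcases mv_vac hy (by simp [pos, hin, hq']) with h1 | ⟨h4, hy⟩
        · exact absurd h1 h3
        rcases pos_vac hy hxy with h | h
        · exact absurd h h4
        · exact Or.inr h
      rcases hy' with rfl | rfl
      · have hx' : x = .Lt i (!b) := by
          cases x <;> simp only [Ed] at hxy
          obtain ⟨rfl, rfl, -⟩ := hxy
          rfl
        subst hx'
        have h3 := hr2 (.A (i + 1)) (.Lt i (!b)) ⟨by simp [mv_apply, pos, hin], by simp [mv_apply],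
          rfl, hin⟩
        rw [pos_all hin hq, Bool.not_not] at h3
        exact ih (i + 1) _ (by omega) hb h3
      · cases x <;> simp only [Ed] at hxy
        simp only [mv_apply, reduceCtorEq, if_false, pos, hxy, if_true] at hx
        exact absurd hx (by simp)
    · omega

theorem win_iff (hK : (6 * qs.length + cs.length + 3) * (4 * qs.length + 5) < K)
    (hwf : ∀ c ∈ cs, ∀ l ∈ c, l.2 < qs.length) (val : ℕ → Bool) :
    evq qs (fun u => evc u cs) = true ↔ Wins (Ed qs cs K) true (pos qs cs K 0 val) := by
  have h : evq qs (fun u => evc u cs) = tv qs cs 0 val := by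
    unfold tv
    simp
  rw [h]
  constructor
  · exact win_true hK hwf qs.length 0 val (by simp)
  · intro hW
    by_contra hc
    exact lose_false hwf qs.length 0 val (by simp) (by simpa using hc) hW

end Pool.Agent.R538.NB
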