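import Pool.Agent.R538.NB.Core
import Pool.Agent.H656R2.AK.AKIn
import Pool.Agent.H671R2.PolyAuto

/-!
# Node Blocking on acyclic graphs is in PSPACE
-/

namespace Pool.Agent.R538.NB

open Pool.Agent.NPC Pool.Agent.H623R2.PS
open Pool.Agent.H656R2.AK (ent poly_ent W mvL W_bisim_iff mem_prod inPSPACE_of_game)

/-- instances -/
abbrev X := List (List Bool) × List (Option Bool) × Bool

theorem code_inj {n n' : ℕ} {E : Fin n → Fin n → Prop} {c : Fin n → Option Bool} {p : Bool}
    {E' : Fin n' → Fin n' → Prop} {c' : Fin n' → Option Bool} {p' : Bool}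
    (h : code E c p = code E' c' p') : ∃ e : n = n', (∀ i j, E i j ↔ E' (i.cast e) (j.cast e)) ∧
      (∀ i, c i = c' (i.cast e)) ∧ p = p' := by
  classical
  unfold code at h
  simp only [Prod.mk.injEq] at h
  obtain ⟨h1, h2, h3⟩ := h
  have e : n = n' := by simpa using congrArg List.length h2
  subst e
  refine ⟨rfl, fun i j => ?_, fun i => ?_, h3⟩
  · have h4 := congrFun (List.ofFn_injective h1) i
    have h5 := congrFun (List.ofFn_injective h4) j
    simpa using h5
  · exact congrFun (List.ofFn_injective h2) i

theorem nbdag_code {n : ℕ} {E : Fin n → Fin n → Prop} {c : Fin n → Option Bool} {p : Bool} :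
    NBDag (code E c p) ↔ (∀ v, ¬ Relation.TransGen E v v) ∧ Wins E p c := by
  constructor
  · rintro ⟨n', E', c', p', h1, h2, h3⟩
    obtain ⟨rfl, h4, h5, rfl⟩ := code_inj h2
    have e1 : E' = E := by
      funext i j
      exact propext (h4 i j)
    have e2 : c' = c := by
      funext i
      exact h5 i
    subst e1
    subst e2
    exact ⟨h1, h3⟩
  · rintro ⟨h1, h2⟩
    exact ⟨n, E, c, p, h1, rfl, h2⟩

/-! ### The test for acyclicity -/

/-- one round -/
def pr (M : List (List Bool)) (S : List ℕ) : List ℕ := S.filter fun u => S.any fun v => ent M u v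

/-- the test -/
def acy (M : List (List Bool)) : Bool :=
  ((pr M)^[(List.range M.length).length] (List.range M.length)).isEmpty

theorem pr_sub (M : List (List Bool)) (S : List ℕ) : ∀ k, ((pr M)^[k] S).Sublist S := by
  intro k
  induction k with
  | zero => exact List.Sublist.refl _
  | succ k ih =>
    rw [Function.iterate_succ_apply']
    exact List.filter_sublist.trans ih

theorem sz_sublist {β : Type} [TEnc β] {l l' : List β} (h : l.Sublist l') : sz l ≤ sz l' := by
  induction h with
  | slnil => exact le_rfl
  | cons a _ ih => rw [sz_list_cons]; omega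
  | cons_cons a _ ih => rw [sz_list_cons, sz_list_cons]; omega

theorem poly_acy : NPC.Poly acy := by
  have hr : NPC.Poly (fun M : List (List Bool) => List.range M.length) :=
    (UPoly.length NPC.Poly.id).range
  obtain ⟨q, hq⟩ := hr.sz_le
  unfold acy
  refine NPC.Poly.isEmpty (NPC.Poly.iterLen (F := fun M S => pr M S) hr hr ?_ q ?_)
  · unfold pr
    refine NPC.Poly.filter (l := fun p : List (List Bool) × List ℕ => p.2)
      (p := fun p u => p.2.any fun v => ent p.1 u v) (by fun_prop) ?_
    refine NPC.Poly.any (l := fun p : (List (List Bool) × List ℕ) × ℕ => p.1.2)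
      (p := fun p v => ent p.1.1 p.2 v) (by fun_prop) ?_
    exact poly_ent (by fun_prop) (by fun_prop) (by fun_prop)
  · intro M k _
    exact (sz_sublist (pr_sub M _ k)).trans (hq M)

/-- the graph of a matrix -/
def EM (M : List (List Bool)) : Fin M.length → Fin M.length → Prop := fun i j => ent M i j = true

open Classical in
/-- number of vertices that can be reached -/
noncomputable def rc {n : ℕ} (E : Fin n → Fin n → Prop) (v : Fin n) : ℕ :=
  (Finset.univ.filter fun w => Relation.TransGen E v w).card

theorem rc_lt {n : ℕ} {E : Fin n → Fin n → Prop} (h : ∀ v, ¬ Relation.TransGen E v v) {u v : Fin n}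
    (huv : E u v) : rc E v < rc E u := by
  classical
  unfold rc
  refine Finset.card_lt_card ?_
  rw [Finset.ssubset_iff_of_subset]
  · exact ⟨v, by simpa using Relation.TransGen.single huv, by simpa using h v⟩
  · intro w hw
    simp only [Finset.mem_filter, Finset.mem_univ, true_and] at hw ⊢
    exact Relation.TransGen.head huv hw

theorem rc_le {n : ℕ} (E : Fin n → Fin n → Prop) (v : Fin n) : rc E v ≤ n := by
  classical
  unfold rc
  exact (Finset.card_le_univ _).trans (by simp)

theorem acy_iff (M : List (List Bool)) :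
    acy M = true ↔ ∀ v, ¬ Relation.TransGen (EM M) v v := by
  unfold acy
  rw [List.length_range, List.isEmpty_iff]
  constructor
  · intro h v hv
    have key : ∀ k, ∀ u : Fin M.length, Relation.TransGen (EM M) u u →
        (u : ℕ) ∈ (pr M)^[k] (List.range M.length) := by
      intro k
      induction k with
      | zero => intro u _; simp
      | succ k ih =>
        intro u hu
        rw [Function.iterate_succ_apply']
        unfold pr
        rw [List.mem_filter, List.any_eq_true]
        refine ⟨ih u hu, ?_⟩
        obtain ⟨w, h1, h2⟩ := Relation.TransGen.head'_iff.1 hu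
        refine ⟨w, ih w ?_, h1⟩
        exact Relation.TransGen.tail'_iff.2 ⟨u, h2, h1⟩
    have := key M.length v hv
    rw [h] at this
    simp at this
  · intro h
    have key : ∀ k, ∀ u : ℕ, u ∈ (pr M)^[k] (List.range M.length) →
        ∃ hu : u < M.length, k ≤ rc (EM M) ⟨u, hu⟩ := by
      intro k
      induction k with
      | zero => intro u hu; exact ⟨by simpa using hu, Nat.zero_le _⟩
      | succ k ih =>
        intro u hu
        rw [Function.iterate_succ_apply'] at hu
        unfold pr at hu
        rw [List.mem_filter, List.any_eq_true] at hu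
        obtain ⟨h1, w, h2, h3⟩ := hu
        obtain ⟨hu, -⟩ := ih u h1
        obtain ⟨hw, h5⟩ := ih w h2
        refine ⟨hu, ?_⟩
        have := rc_lt h (u := ⟨u, hu⟩) (v := ⟨w, hw⟩) h3
        omega
    rw [List.eq_nil_iff_forall_not_mem]
    intro u hu
    obtain ⟨h1, h2⟩ := key _ u hu
    have h3 : rc (EM M) ⟨u, h1⟩ < M.length := by
      classical
      unfold rc
      have : (Finset.univ.filter fun w => Relation.TransGen (EM M) ⟨u, h1⟩ w) ⊂ Finset.univ := by
        rw [Finset.ssubset_univ_iff]
        intro he
        have : (⟨u, h1⟩ : Fin M.length) ∈ (Finset.univ.filter fun w =>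
            Relation.TransGen (EM M) ⟨u, h1⟩ w) := by rw [he]; exact Finset.mem_univ _
        exact h _ (by simpa using this)
      simpa using Finset.card_lt_card this
    omega

/-- the test whether a triple is an instance -/
def vld (x : X) : Bool :=
  (decide (x.2.1.length = x.1.length) && x.1.all fun r => decide (r.length = x.1.length)) && acy x.1

/-- contents of the vertices -/
def cT (x : X) : Fin x.1.length → Option Bool := fun i => x.2.1.getD i none

theorem code_of_vld {x : X} (h : vld x = true) : code (EM x.1) (cT x) x.2.2 = x := by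
  classical
  obtain ⟨M, T, p⟩ := x
  unfold vld at h
  simp only [Bool.and_eq_true, decide_eq_true_eq, List.all_eq_true] at h
  obtain ⟨⟨h1, h2⟩, -⟩ := h
  unfold code
  simp only [Prod.mk.injEq, and_true]
  constructor
  · apply List.ext_getElem
    · simp
    · intro i h3 h4
      rw [List.getElem_ofFn]
      apply List.ext_getElem
      · rw [List.length_ofFn, h2 _ (List.getElem_mem h4)]
      · intro j h5 h6
        rw [List.getElem_ofFn]
        simp only [EM, ent, List.getD_eq_getElem?_getD, List.getElem?_eq_getElem h4,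
          Option.getD_some, List.getElem?_eq_getElem h6]
        simp
  · apply List.ext_getElem
    · simp [h1]
    · intro i h3 h4
      rw [List.getElem_ofFn]
      simp only [cT]
      rw [List.getD_eq_getElem?_getD, List.getElem?_eq_getElem h4, Option.getD_some]

theorem vld_code {n : ℕ} {E : Fin n → Fin n → Prop} (c : Fin n → Option Bool) (p : Bool)
    (h : ∀ v, ¬ Relation.TransGen E v v) : vld (code E c p) = true := by
  classical
  have hent : ∀ (i j : Fin n), ent (code E c p).1 i j = decide (E i j) := by
    intro i j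
    simp [ent, code, List.getD_eq_getElem?_getD]
  have hlen : (code E c p).1.length = n := by simp [code]
  unfold vld
  simp only [Bool.and_eq_true, decide_eq_true_eq, List.all_eq_true]
  refine ⟨⟨?_, ?_⟩, ?_⟩
  · rw [hlen]; simp [code]
  · rw [hlen]
    intro r hr
    unfold code at hr
    simp only [List.mem_ofFn] at hr
    obtain ⟨i, rfl⟩ := hr
    simp
  · rw [acy_iff]
    intro v hv
    have key : ∀ a b : Fin (code E c p).1.length, Relation.TransGen (EM (code E c p).1) a b →
        Relation.TransGen E (a.cast hlen) (b.cast hlen) := by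
      intro a b hab
      induction hab with
      | @single b h =>
        refine Relation.TransGen.single ?_
        have := hent (a.cast hlen) (b.cast hlen)
        have h' : ent (code E c p).1 a b = true := h
        rw [Fin.val_cast, Fin.val_cast, h'] at this
        simpa using this.symm
      | @tail b d _ h ih =>
        refine Relation.TransGen.tail ih ?_
        have := hent (b.cast hlen) (d.cast hlen)
        have h' : ent (code E c p).1 b d = true := h
        rw [Fin.val_cast, Fin.val_cast, h'] at this
        simpa using this.symm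
    exact h _ (key v v hv)

theorem nbdag_iff (x : X) : NBDag x ↔ vld x = true ∧ Wins (EM x.1) x.2.2 (cT x) := by
  constructor
  · rintro ⟨n, E, c, p, h1, rfl, h3⟩
    have hv := vld_code c p h1
    refine ⟨hv, ?_⟩
    have h4 : NBDag (code (EM (code E c p).1) (cT (code E c p)) (code E c p).2.2) := by
      rw [code_of_vld hv]
      exact ⟨n, E, c, p, h1, rfl, h3⟩
    exact (nbdag_code.1 h4).2
  · rintro ⟨h1, h2⟩
    have h3 := code_of_vld h1
    rw [← h3, nbdag_code]
    refine ⟨?_, h2⟩
    unfold vld at h1
    simp only [Bool.and_eq_true] at h1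
    exact (acy_iff _).1 h1.2

/-! ### The game on lists -/

/-- positions -/
abbrev Ps := List (List Bool) × List (Option Bool) × Bool × Bool

/-- the contents of the vertices after a move -/
def setT (T : List (Option Bool)) (p : Bool) (u v : ℕ) : List (Option Bool) :=
  (List.range T.length).map fun w => if w = u then none else if w = v then some p else T.getD w none

/-- the moves -/
def nbMoves (b : Ps) : List Ps :=
  ((List.range b.2.1.length ×ˢ List.range b.2.1.length).filter fun e => ent b.1 e.1 e.2 &&
    (decide (b.2.1.getD e.1 none = some b.2.2.1) && decide (b.2.1.getD e.2 none = none))).map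
      fun e => (b.1, setT b.2.1 b.2.2.1 e.1 e.2, b.2.2.2, b.2.2.1)

theorem mem_nbMoves {b b' : Ps} : b' ∈ nbMoves b ↔ ∃ u < b.2.1.length, ∃ v < b.2.1.length,
    ent b.1 u v = true ∧ b.2.1.getD u none = some b.2.2.1 ∧ b.2.1.getD v none = none ∧
      b' = (b.1, setT b.2.1 b.2.2.1 u v, b.2.2.2, b.2.2.1) := by
  unfold nbMoves
  rw [List.mem_map]
  constructor
  · rintro ⟨⟨u, v⟩, h, rfl⟩
    rw [List.mem_filter, mem_prod, List.mem_range, List.mem_range, Bool.and_eq_true,
      Bool.and_eq_true, decide_eq_true_eq, decide_eq_true_eq] at h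
    exact ⟨u, h.1.1, v, h.1.2, h.2.1, h.2.2.1, h.2.2.2, rfl⟩
  · rintro ⟨u, hu, v, hv, h1, h2, h3, rfl⟩
    refine ⟨(u, v), List.mem_filter.2 ⟨mem_prod.2 ⟨List.mem_range.2 hu, List.mem_range.2 hv⟩, ?_⟩, rfl⟩
    rw [Bool.and_eq_true, Bool.and_eq_true, decide_eq_true_eq, decide_eq_true_eq]
    exact ⟨h1, h2, h3⟩

theorem poly_nbMoves : NPC.Poly nbMoves := by
  have hr : NPC.Poly (fun b : Ps => List.range b.2.1.length) :=
    (UPoly.length (l := fun b : Ps => b.2.1) (by fun_prop)).range
  have h1 : NPC.Poly (fun b : Ps => (List.range b.2.1.length ×ˢ List.range b.2.1.length)) := by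
    fun_prop
  unfold nbMoves
  refine NPC.Poly.map (F := fun (b : Ps) (e : ℕ × ℕ) =>
    (b.1, setT b.2.1 b.2.2.1 e.1 e.2, b.2.2.2, b.2.2.1)) (NPC.Poly.filter
    (p := fun (b : Ps) (e : ℕ × ℕ) => ent b.1 e.1 e.2 &&
    (decide (b.2.1.getD e.1 none = some b.2.2.1) && decide (b.2.1.getD e.2 none = none))) h1 ?_) ?_
  · refine NPC.Poly.and (poly_ent (by fun_prop) (by fun_prop) (by fun_prop)) ?_
    fun_prop
  · have h2 : NPC.Poly (fun p : Ps × (ℕ × ℕ) => setT p.1.2.1 p.1.2.2.1 p.2.1 p.2.2) := by
      unfold setT
      refine NPC.Poly.map (l := fun p : Ps × (ℕ × ℕ) => List.range p.1.2.1.length)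
        (F := fun p w => if w = p.2.1 then none else if w = p.2.2 then some p.1.2.2.1
          else p.1.2.1.getD w none) (hr.comp (by fun_prop)) ?_
      fun_prop
    fun_prop


theorem sz_set {β : Type} [TEnc β] : ∀ (l : List β) (i : ℕ) (a : β) (h : i < l.length),
    sz (l.set i a) + sz l[i] = sz l + sz a := by
  intro l
  induction l with
  | nil => intro i a h; simp at h
  | cons b l ih =>
    intro i a h
    cases i with
    | zero => simp; omega
    | succ i =>
      have := ih i a (by simpa using h)
      simp only [List.set_cons_succ, sz_list_cons, List.getElem_cons_succ]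
      omega

theorem setT_eq {T : List (Option Bool)} {p : Bool} {u v : ℕ} :
    setT T p u v = (T.set v (some p)).set u none := by
  apply List.ext_getElem
  · simp [setT]
  · intro i h1 h2
    have h3 : i < T.length := by simpa using h2
    simp only [setT, List.getElem_map, List.getElem_range, List.getElem_set]
    by_cases e1 : i = u
    · rw [if_pos e1, if_pos e1.symm]
    · rw [if_neg e1, if_neg (Ne.symm e1)]
      by_cases e2 : i = v
      · rw [if_pos e2, if_pos e2.symm]
      · rw [if_neg e2, if_neg (Ne.symm e2), List.getD_eq_getElem?_getD,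
          List.getElem?_eq_getElem h3, Option.getD_some]

theorem getElem_of_getD {T : List (Option Bool)} {u : ℕ} {o : Option Bool} (hu : u < T.length)
    (h : T.getD u none = o) : T[u] = o := by
  rw [List.getD_eq_getElem?_getD, List.getElem?_eq_getElem hu, Option.getD_some] at h
  exact h

theorem sz_setT {T : List (Option Bool)} {p : Bool} {u v : ℕ} (hu : u < T.length)
    (hv : v < T.length) (h1 : T.getD u none = some p) (h2 : T.getD v none = none) :
    sz (setT T p u v) = sz T := by
  have huv : u ≠ v := by rintro rfl; rw [h1] at h2; exact absurd h2 (by simp)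
  rw [setT_eq]
  have e1 := sz_set T v (some p) hv
  have e2 := sz_set (T.set v (some p)) u none (by simpa using hu)
  rw [List.getElem_set_ne (Ne.symm huv), getElem_of_getD hu h1] at e2
  rw [getElem_of_getD hv h2] at e1
  omega

/-- the position of the abstract game -/
def mvA {n : ℕ} (E : Fin n → Fin n → Prop) (a a' : Bool × (Fin n → Option Bool)) : Prop :=
  ∃ u v, Legal E a.1 a.2 u v ∧ a' = (!a.1, mv a.2 u v)

theorem wins_iff_W {n : ℕ} {E : Fin n → Fin n → Prop} {p : Bool} {c : Fin n → Option Bool} :
    Wins E p c ↔ W (mvA E) (p, c) := by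
  constructor
  · intro h
    induction h with
    | intro c u v h _ ih =>
      refine W.mk _ (!p, mv c u v) ⟨u, v, h, rfl⟩ ?_
      rintro _ ⟨x, y, hxy, rfl⟩
      simpa using ih x y hxy
  · intro h
    have key : ∀ a, W (mvA E) a → a.1 = p → Wins E p a.2 := by
      intro a ha
      induction ha with
      | mk a b h hb ih =>
        intro hp
        obtain ⟨u, v, h, rfl⟩ := h
        rw [hp] at h ih
        refine Wins.intro _ u v h fun x y hxy => ?_
        have := ih _ ⟨x, y, hxy, rfl⟩
        simpa using this
    exact key _ h rfl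

/-- relation between lists and positions -/
def Rl (M : List (List Bool)) (b : Ps) (a : Bool × (Fin M.length → Option Bool)) : Prop :=
  b.1 = M ∧ b.2.1.length = M.length ∧ (∀ i : Fin M.length, b.2.1.getD i none = a.2 i) ∧
    b.2.2.1 = a.1 ∧ b.2.2.2 = !a.1

theorem Rl_set {M : List (List Bool)} {T : List (Option Bool)} {c : Fin M.length → Option Bool}
    {p : Bool} (h1 : T.length = M.length) (h2 : ∀ i : Fin M.length, T.getD i none = c i)
    {u v : Fin M.length} (hu : c u = some p) :
    ∀ i : Fin M.length, (setT T p u v).getD i none = mv c u v i := by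
  intro i
  have hi : (i : ℕ) < T.length := by rw [h1]; exact i.2
  have e : (setT T p u v).getD i none = if (i : ℕ) = u then none else if (i : ℕ) = v then some p
      else T.getD i none := by
    unfold setT
    rw [List.getD_eq_getElem?_getD, List.getElem?_map, List.getElem?_range hi]
    rfl
  rw [e, mv_apply, hu, h2 i]
  simp only [Fin.ext_iff]

theorem W_list {M : List (List Bool)} {b : Ps} {a : Bool × (Fin M.length → Option Bool)}
    (h : Rl M b a) : W (mvL nbMoves) b ↔ W (mvA (EM M)) a := by
  refine W_bisim_iff (Rl M) ?_ ?_ h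
  · rintro ⟨M', T, p, p'⟩ ⟨q, c⟩ b' ⟨h1, h2, h3, h4, h5⟩ hm
    simp only at h1 h2 h3 h4 h5
    subst h1 h4 h5
    rw [mvL, mem_nbMoves] at hm
    obtain ⟨u, hu, v, hv, he, h6, h7, rfl⟩ := hm
    simp only at hu hv he h6 h7
    rw [h2] at hu hv
    have e6 : c ⟨u, hu⟩ = some p := by rw [← h3]; exact h6
    have e7 : c ⟨v, hv⟩ = none := by rw [← h3]; exact h7
    refine ⟨(!p, mv c ⟨u, hu⟩ ⟨v, hv⟩), ⟨⟨u, hu⟩, ⟨v, hv⟩, ⟨e6, e7, he⟩, rfl⟩, rfl, ?_, ?_, rfl, ?_⟩
    · simp [setT, h2]
    · intro i
      exact Rl_set (u := ⟨u, hu⟩) (v := ⟨v, hv⟩) h2 h3 e6 i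
    · simp
  · rintro ⟨M', T, p, p'⟩ ⟨q, c⟩ a' ⟨h1, h2, h3, h4, h5⟩ hm
    simp only at h1 h2 h3 h4 h5
    subst h1 h4 h5
    obtain ⟨u, v, ⟨h6, h7, h8⟩, rfl⟩ := hm
    simp only at h6 h7 h8
    refine ⟨(M', setT T p u v, !p, p), ?_, rfl, ?_, ?_, rfl, ?_⟩
    · rw [mvL, mem_nbMoves]
      refine ⟨u, by rw [h2]; exact u.2, v, by rw [h2]; exact v.2, h8, ?_, ?_, rfl⟩
      · rw [h3, h6]
      · rw [h3, h7]
    · simp [setT, h2]
    · exact Rl_set h2 h3 h6
    · simp

/-- rank of a position -/
noncomputable def rk (b : Ps) : ℕ :=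
  ∑ i : Fin b.1.length, if b.2.1.getD i none = none then 0 else rc (EM b.1) i

theorem rk_lt {M : List (List Bool)} {T : List (Option Bool)} {p p' : Bool}
    (hac : ∀ v, ¬ Relation.TransGen (EM M) v v) (hT : T.length = M.length) {b' : Ps}
    (h : b' ∈ nbMoves (M, T, p, p')) : rk b' < rk (M, T, p, p') := by
  rw [mem_nbMoves] at h
  obtain ⟨u, hu, v, hv, he, h6, h7, rfl⟩ := h
  simp only at hu hv he h6 h7
  have hu' : u < M.length := by omega
  have hv' : v < M.length := by omega
  have huv : u ≠ v := by rintro rfl; rw [h6] at h7; exact absurd h7 (by simp)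
  have hlt := rc_lt hac (u := ⟨u, hu'⟩) (v := ⟨v, hv'⟩) he
  unfold rk
  simp only
  have key : ∀ i : Fin M.length, (if (setT T p u v).getD i none = none then 0 else rc (EM M) i) +
      (if i = ⟨u, hu'⟩ then rc (EM M) ⟨u, hu'⟩ else 0) =
      (if T.getD i none = none then 0 else rc (EM M) i) +
      (if i = ⟨v, hv'⟩ then rc (EM M) ⟨v, hv'⟩ else 0) := by
    intro i
    have hi : (i : ℕ) < T.length := by rw [hT]; exact i.2
    have e : (setT T p u v).getD i none = if (i : ℕ) = u then none else if (i : ℕ) = v then some p
        else T.getD i none := by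
      unfold setT
      rw [List.getD_eq_getElem?_getD, List.getElem?_map, List.getElem?_range hi]
      rfl
    rw [e]
    simp only [Fin.ext_iff]
    by_cases e1 : (i : ℕ) = u
    · have e2 : (i : ℕ) ≠ v := by omega
      have e3 : i = ⟨u, hu'⟩ := Fin.ext e1
      rw [if_pos e1, if_pos rfl, if_pos e1, if_neg e2, e3]
      simp only [h6]
      simp
    · by_cases e2 : (i : ℕ) = v
      · have e3 : i = ⟨v, hv'⟩ := Fin.ext e2
        rw [if_neg e1, if_pos e2, if_neg e1, if_pos e2, e3]
        simp only [h7]
        simp
      · rw [if_neg e1, if_neg e2, if_neg e1, if_neg e2]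
  have hs := Finset.sum_congr (rfl : (Finset.univ : Finset (Fin M.length)) = _) (fun i _ => key i)
  rw [Finset.sum_add_distrib, Finset.sum_add_distrib, Finset.sum_ite_eq', Finset.sum_ite_eq',
    if_pos (Finset.mem_univ _), if_pos (Finset.mem_univ _)] at hs
  omega

theorem rk_le (b : Ps) : rk b ≤ b.1.length * b.1.length := by
  unfold rk
  refine (Finset.sum_le_card_nsmul Finset.univ _ b.1.length ?_).trans ?_
  · intro i _
    split_ifs
    · exact Nat.zero_le _
    · exact rc_le _ _
  · simp

/-- the initial position -/
def nbInit (x : List Bool) : Ps :=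
  if vld ((unbits X x).getD ([], [], true)) = true then
    (((unbits X x).getD ([], [], true)).1, ((unbits X x).getD ([], [], true)).2.1,
      ((unbits X x).getD ([], [], true)).2.2, !((unbits X x).getD ([], [], true)).2.2)
  else ([], [], true, false)

theorem poly_vld : NPC.Poly vld := by
  unfold vld
  refine NPC.Poly.and (NPC.Poly.and (by fun_prop) ?_) (poly_acy.comp (by fun_prop))
  exact NPC.Poly.all (l := fun x : X => x.1) (p := fun x r => decide (r.length = x.1.length))
    (by fun_prop) (by fun_prop)

theorem nbdag_mem : InPSPACE (lang NBDag) := by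
  have hdec : NPC.Poly (fun x : List Bool => (unbits X x).getD ([], [], true)) :=
    NPC.Poly.optGetD poly_unbits (NPC.Poly.const _)
  have hv : NPC.Poly (fun x : List Bool => vld ((unbits X x).getD ([], [], true))) :=
    poly_vld.comp hdec
  have hinit : NPC.Poly nbInit := by
    unfold nbInit
    refine NPC.Poly.ite (hv.congr fun x => by simp) ?_ (NPC.Poly.const _)
    fun_prop
  have hlen : UPoly (fun x : List Bool => (nbInit x).1.length) := UPoly.length (NPC.Poly.fst hinit)
  refine inPSPACE_of_game hinit (good := fun _ => true) (NPC.Poly.const true) poly_nbMoves ?_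
    (w := fun x => (nbInit x).1.length * (nbInit x).1.length + 1)
    ((hlen.mul hlen).add (UPoly.const 1))
    (fun x b => b.1 = (nbInit x).1 ∧ (∀ v, ¬ Relation.TransGen (EM b.1) v v) ∧
      b.2.1.length = b.1.length) rk ?_ ?_ ?_ ?_
  · intro b b' hb'
    rw [mem_nbMoves] at hb'
    obtain ⟨u, hu, v, hv, he, h6, h7, rfl⟩ := hb'
    obtain ⟨M, T, p, p'⟩ := b
    simp only [sz_pair]
    have := sz_setT hu hv h6 h7
    simp only at this
    omega
  · intro x
    refine ⟨rfl, ?_⟩
    by_cases h : vld ((unbits X x).getD ([], [], true)) = true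
    · have e : nbInit x = (((unbits X x).getD ([], [], true)).1, ((unbits X x).getD ([], [], true)).2.1,
          ((unbits X x).getD ([], [], true)).2.2, !((unbits X x).getD ([], [], true)).2.2) := by
        unfold nbInit
        rw [if_pos h]
      rw [e]
      unfold vld at h
      simp only [Bool.and_eq_true, decide_eq_true_eq] at h
      exact ⟨(acy_iff _).1 h.2, h.1.1⟩
    · have e : nbInit x = ([], [], true, false) := by
        unfold nbInit
        rw [if_neg h]
      rw [e]
      exact ⟨fun v => v.elim0, rfl⟩
  · rintro x ⟨M, T, p, p'⟩ ⟨h1, h2, h3⟩ b' hb'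
    refine ⟨?_, rk_lt h2 h3 hb'⟩
    rw [mem_nbMoves] at hb'
    obtain ⟨u, hu, v, hv, he, h6, h7, rfl⟩ := hb'
    refine ⟨h1, h2, ?_⟩
    simp only [setT, List.length_map, List.length_range]
    exact h3
  · rintro x b ⟨h1, h2, h3⟩
    rw [← h1]
    constructor
    · unfold nbMoves
      rw [List.length_map]
      refine (List.length_filter_le _ _).trans ?_
      rw [List.length_product, List.length_range, h3]
      omega
    · have := rk_le b
      omega
  · intro x
    rw [mem_lang_iff]
    have hW : ∀ y : X, vld y = true → (W (mvL nbMoves) (y.1, y.2.1, y.2.2, !y.2.2) ↔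
        Wins (EM y.1) y.2.2 (cT y)) := by
      intro y hy
      rw [wins_iff_W]
      refine W_list ⟨rfl, ?_, fun i => rfl, rfl, rfl⟩
      unfold vld at hy
      simp only [Bool.and_eq_true, decide_eq_true_eq] at hy
      exact hy.1.1
    constructor
    · rintro ⟨y, hy, h⟩
      rw [nbdag_iff] at h
      refine ⟨rfl, ?_⟩
      unfold nbInit
      rw [hy, Option.getD_some, if_pos h.1]
      exact (hW y h.1).2 h.2
    · rintro ⟨-, h⟩
      unfold nbInit at h
      split_ifs at h with hv'
      · cases hx : unbits X x with
        | none =>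
          exfalso
          rw [hx, Option.getD_none] at h
          obtain ⟨_, b', hb', -⟩ := h
          rw [mvL, mem_nbMoves] at hb'
          obtain ⟨u, hu, -⟩ := hb'
          simp at hu
        | some y =>
          rw [hx, Option.getD_some] at h hv'
          exact ⟨y, rfl, (nbdag_iff y).2 ⟨hv', (hW y hv').1 h⟩⟩
      · exfalso
        obtain ⟨_, b', hb', -⟩ := h
        rw [mvL, mem_nbMoves] at hb'
        obtain ⟨u, hu, -⟩ := hb'
        simp at hu

end Pool.Agent.R538.NB
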