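import Pool.Agent.R538.NB.Game
import Pool.Agent.R538.NB.In

/-!
# The reduction
-/

namespace Pool.Agent.R538.NB

open Pool.Agent.NPC Pool.Agent.H623R2.PS
open Pool.Agent.H656R2.AK (QF QFwf evc mem_prod qbf_hard)

/-- labels of the vertices -/
abbrev Lb := ℕ × ℕ × Bool

/-- the vertex of a label -/
def dec : Lb → Nd
  | (0, i, _) => .A i
  | (1, i, b) => .Lt i b
  | (2, i, _) => .B i
  | (3, i, b) => .E i b
  | (4, _, _) => .Y
  | (5, i, _) => .Q i
  | (6, i, _) => .U i
  | (_, _, _) => .S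

/-- length of the queue -/
def KK (Q : QF) : ℕ := (6 * Q.1.length + Q.2.length + 3) * (4 * Q.1.length + 5) + 1

/-- valid labels -/
def okL (Q : QF) (z : Lb) : Bool :=
  (decide (z.1 = 0) && (decide (z.2.1 ≤ Q.1.length) && !z.2.2)) ||
  ((decide (z.1 = 1) && decide (z.2.1 < Q.1.length)) ||
  ((decide (z.1 = 2) && (decide (z.2.1 < Q.1.length) && !z.2.2)) ||
  ((decide (z.1 = 3) && decide (z.2.1 < Q.1.length)) ||
  ((decide (z.1 = 4) && (decide (z.2.1 = 0) && !z.2.2)) ||
  ((decide (z.1 = 5) && (decide (z.2.1 ≤ KK Q) && !z.2.2)) ||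
  ((decide (z.1 = 6) && (decide (z.2.1 < Q.2.length) && !z.2.2)) ||
  (decide (z.1 = 7) && (decide (z.2.1 = 0) && !z.2.2))))))))

/-- the list of labels -/
def vs (Q : QF) : List Lb :=
  ((List.range 8) ×ˢ ((List.range (KK Q + 1)) ×ˢ [false, true])).filter (okL Q)

/-- the edges on labels -/
def edL (Q : QF) (z z' : Lb) : Bool :=
  (decide (z.1 = 1) && (decide (z'.1 = 0) && (decide (z.2.1 = z'.2.1) && !(Q.1.getD z.2.1 false)))) ||
  ((decide (z.1 = 2) && (decide (z'.1 = 0) && (decide (z.2.1 = z'.2.1) && Q.1.getD z.2.1 false))) ||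
  ((decide (z.1 = 3) && (decide (z'.1 = 2) && (decide (z.2.1 = z'.2.1) && Q.1.getD z.2.1 false))) ||
  ((decide (z.1 = 1) && (decide (z'.1 = 3) && (decide (z.2.1 = z'.2.1) &&
    (decide (z.2.2 = z'.2.2) && Q.1.getD z.2.1 false)))) ||
  ((decide (z.1 = 0) && (decide (z'.1 = 1) && decide (z.2.1 = z'.2.1 + 1))) ||
  ((decide (z.1 = 4) && (decide (z'.1 = 0) && decide (z'.2.1 = Q.1.length))) ||
  ((decide (z.1 = 5) && (decide (z'.1 = 1) && decide (z.2.1 = 0))) ||
  ((decide (z.1 = 5) && (decide (z'.1 = 2) && (decide (z.2.1 = 0) && Q.1.getD z'.2.1 false))) ||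
  ((decide (z.1 = 5) && (decide (z'.1 = 5) && decide (z.2.1 = z'.2.1 + 1))) ||
  ((decide (z.1 = 1) && (decide (z'.1 = 6) && decide ((z.2.2, z.2.1) ∈ Q.2.getD z'.2.1 []))) ||
  (decide (z.1 = 6) && decide (z'.1 = 7)))))))))))

/-- the tokens on labels -/
def tkL (Q : QF) (z : Lb) : Option Bool :=
  if z.1 = 0 then (if z.2.1 = 0 then none else some false)
  else if z.1 = 1 then some true
  else if z.1 = 2 then (if Q.1.getD z.2.1 false = true then some true else none)
  else if z.1 = 3 then (if Q.1.getD z.2.1 false = true then some false else none)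
  else if z.1 = 4 then some true
  else if z.1 = 5 then some true
  else if z.1 = 6 then some false
  else none

theorem mem_vs {Q : QF} {z : Lb} : z ∈ vs Q ↔ okL Q z = true := by
  obtain ⟨a, i, b⟩ := z
  unfold vs
  rw [List.mem_filter, mem_prod, mem_prod, List.mem_range, List.mem_range]
  constructor
  · exact fun h => h.2
  · intro h
    refine ⟨⟨?_, ?_, by cases b <;> simp⟩, h⟩
    · simp only [okL, Bool.or_eq_true, Bool.and_eq_true, decide_eq_true_eq] at h
      simp only
      omega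
    · have hK : Q.1.length ≤ KK Q ∧ Q.2.length ≤ KK Q := by
        unfold KK
        constructor <;> nlinarith [Nat.zero_le Q.1.length, Nat.zero_le Q.2.length]
      simp only [okL, Bool.or_eq_true, Bool.and_eq_true, decide_eq_true_eq] at h
      simp only
      omega

theorem edL_iff {Q : QF} {z z' : Lb} (hz : okL Q z = true) (hz' : okL Q z' = true) :
    edL Q z z' = true ↔ Ed Q.1 Q.2 (KK Q) (dec z) (dec z') := by
  obtain ⟨a, i, b⟩ := z
  obtain ⟨a', i', b'⟩ := z'
  have ha : a < 8 := by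
    simp only [okL, Bool.or_eq_true, Bool.and_eq_true, decide_eq_true_eq] at hz
    omega
  have ha' : a' < 8 := by
    simp only [okL, Bool.or_eq_true, Bool.and_eq_true, decide_eq_true_eq] at hz'
    omega
  interval_cases a <;> interval_cases a' <;>
    simp [okL, edL, dec, Ed] at hz hz' ⊢ <;> (try simp_all) <;> (try omega)

/-! ### Renaming the vertices -/

theorem wins_transfer {V W : Type*} [DecidableEq V] [DecidableEq W] {f : V → W}
    (hf : Function.Injective f) {E : V → V → Prop} {E' : W → W → Prop}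
    (h : ∀ i j, E' (f i) (f j) ↔ E i j) (hr : ∀ a b, E' a b → a ∈ Set.range f ∧ b ∈ Set.range f)
    {p : Bool} {c : V → Option Bool} {c' : W → Option Bool} (hc : ∀ i, c' (f i) = c i) :
    Wins E p c ↔ Wins E' p c' := by
  have hmv : ∀ (c : V → Option Bool) (c' : W → Option Bool) (u v : V), (∀ i, c' (f i) = c i) →
      ∀ i, mv c' (f u) (f v) (f i) = mv c u v i := by
    intro c c' u v hc i
    simp only [mv_apply, hf.eq_iff, hc]
  have hleg : ∀ (q : Bool) (c : V → Option Bool) (c' : W → Option Bool) (u v : V),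
      (∀ i, c' (f i) = c i) → (Legal E' q c' (f u) (f v) ↔ Legal E q c u v) := by
    intro q c c' u v hc
    unfold Legal
    rw [hc, hc, h]
  constructor
  · intro hW
    induction hW generalizing c' with
    | intro c u v hl _ ih =>
      refine Wins.intro _ (f u) (f v) ((hleg p c c' u v hc).2 hl) ?_
      intro x y hxy
      obtain ⟨⟨x, rfl⟩, ⟨y, rfl⟩⟩ := hr _ _ hxy.2.2
      have h1 := hmv c c' u v hc
      exact ih x y ((hleg _ _ _ x y h1).1 hxy) (hmv _ _ x y h1)
  · intro hW
    induction hW generalizing c with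
    | intro c' u v hl _ ih =>
      obtain ⟨⟨u, rfl⟩, ⟨v, rfl⟩⟩ := hr _ _ hl.2.2
      refine Wins.intro _ u v ((hleg p c c' u v hc).1 hl) ?_
      intro x y hxy
      have h1 := hmv c c' u v hc
      exact ih (f x) (f y) ((hleg _ _ _ x y h1).2 hxy) (hmv _ _ x y h1)

/-! ### Labels -/

theorem nodup_vs (Q : QF) : (vs Q).Nodup := by
  unfold vs
  refine List.Nodup.filter _ ?_
  have h2 : (([false, true]) : List Bool).Nodup := by decide
  exact List.Nodup.product List.nodup_range (List.Nodup.product List.nodup_range h2)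

theorem dec_inj {Q : QF} {z z' : Lb} (hz : okL Q z = true) (hz' : okL Q z' = true)
    (h : dec z = dec z') : z = z' := by
  obtain ⟨a, i, b⟩ := z
  obtain ⟨a', i', b'⟩ := z'
  have ha : a < 8 := by
    simp only [okL, Bool.or_eq_true, Bool.and_eq_true, decide_eq_true_eq] at hz
    omega
  have ha' : a' < 8 := by
    simp only [okL, Bool.or_eq_true, Bool.and_eq_true, decide_eq_true_eq] at hz'
    omega
  interval_cases a <;> interval_cases a' <;> simp [okL, dec] at hz hz' h ⊢ <;> simp_all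

/-- the vertex with a number -/
def nd (Q : QF) (i : Fin (vs Q).length) : Nd := dec ((vs Q)[i])

theorem ok_get (Q : QF) (i : Fin (vs Q).length) : okL Q ((vs Q)[i]) = true :=
  mem_vs.1 (List.getElem_mem _)

theorem nd_inj (Q : QF) : Function.Injective (nd Q) := by
  intro i j h
  have h1 := dec_inj (ok_get Q i) (ok_get Q j) h
  have h2 := (List.Nodup.getElem_inj_iff (nodup_vs Q)).1 h1
  exact Fin.ext h2

theorem nd_range {Q : QF} {z : Lb} (h : okL Q z = true) : dec z ∈ Set.range (nd Q) := by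
  obtain ⟨i, hi, rfl⟩ := List.getElem_of_mem (mem_vs.2 h)
  exact ⟨⟨i, hi⟩, rfl⟩

theorem ed_range {Q : QF} (hwf : QFwf Q) {u v : Nd} (h : Ed Q.1 Q.2 (KK Q) u v) :
    u ∈ Set.range (nd Q) ∧ v ∈ Set.range (nd Q) := by
  have hA : ∀ i, i ≤ Q.1.length → (Nd.A i) ∈ Set.range (nd Q) := fun i hi =>
    nd_range (z := (0, i, false)) (by simp [okL, hi])
  have hL : ∀ i b, i < Q.1.length → (Nd.Lt i b) ∈ Set.range (nd Q) := fun i b hi =>
    nd_range (z := (1, i, b)) (by simp [okL, hi])
  have hB : ∀ i, i < Q.1.length → (Nd.B i) ∈ Set.range (nd Q) := fun i hi =>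
    nd_range (z := (2, i, false)) (by simp [okL, hi])
  have hE : ∀ i b, i < Q.1.length → (Nd.E i b) ∈ Set.range (nd Q) := fun i b hi =>
    nd_range (z := (3, i, b)) (by simp [okL, hi])
  have hY : Nd.Y ∈ Set.range (nd Q) := nd_range (z := (4, 0, false)) (by simp [okL])
  have hS : Nd.S ∈ Set.range (nd Q) := nd_range (z := (7, 0, false)) (by simp [okL])
  have hQ : ∀ i, i ≤ KK Q → (Nd.Q i) ∈ Set.range (nd Q) := fun i hi =>
    nd_range (z := (5, i, false)) (by simp [okL, hi])
  have hU : ∀ i, i < Q.2.length → (Nd.U i) ∈ Set.range (nd Q) := fun i hi =>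
    nd_range (z := (6, i, false)) (by simp [okL, hi])
  cases u <;> cases v <;> simp only [Ed] at h
  · exact ⟨hA _ (by omega), hL _ _ h.2⟩
  · exact ⟨hL _ _ h.2.1, hA _ (by omega)⟩
  · exact ⟨hL _ _ h.2.2.1, hE _ _ (by omega)⟩
  · exact ⟨hL _ _ h.1, hU _ h.2.1⟩
  · exact ⟨hB _ h.2.1, hA _ (by omega)⟩
  · exact ⟨hE _ _ h.2.1, hB _ (by omega)⟩
  · exact ⟨hY, hA _ (by omega)⟩
  · exact ⟨hQ _ (by omega), hL _ _ h.2⟩
  · exact ⟨hQ _ (by omega), hB _ h.2.1⟩
  · exact ⟨hQ _ h.2, hQ _ (by omega)⟩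
  · exact ⟨hU _ h, hS⟩

/-- height of a vertex -/
def ht (n : ℕ) : Nd → ℕ
  | .A i => 4 * i + 2
  | .Lt i _ => 4 * i + 5
  | .B i => 4 * i + 3
  | .E i _ => 4 * i + 4
  | .Y => 4 * n + 3
  | .Q j => 4 * n + 6 + j
  | .U _ => 1
  | .S => 0

theorem ht_lt {qs : List Bool} {cs : List (List (Bool × ℕ))} {K : ℕ} {u v : Nd}
    (h : Ed qs cs K u v) : ht qs.length v < ht qs.length u := by
  cases u <;> cases v <;> simp only [Ed] at h <;> simp only [ht] <;> omega

/-- the edge relation on numbers -/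
def EE (Q : QF) (i j : Fin (vs Q).length) : Prop := edL Q ((vs Q)[i]) ((vs Q)[j]) = true

/-- the tokens -/
def TT (Q : QF) (i : Fin (vs Q).length) : Option Bool := tkL Q ((vs Q)[i])

theorem EE_iff (Q : QF) (i j : Fin (vs Q).length) :
    Ed Q.1 Q.2 (KK Q) (nd Q i) (nd Q j) ↔ EE Q i j :=
  (edL_iff (ok_get Q i) (ok_get Q j)).symm

theorem EE_acyclic (Q : QF) (v : Fin (vs Q).length) : ¬ Relation.TransGen (EE Q) v v := by
  intro h
  have key : ∀ a b, Relation.TransGen (EE Q) a b →
      ht Q.1.length (nd Q b) < ht Q.1.length (nd Q a) := by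
    intro a b hab
    induction hab with
    | single h => exact ht_lt ((EE_iff Q _ _).2 h)
    | tail _ h ih => exact (ht_lt ((EE_iff Q _ _).2 h)).trans ih
  exact lt_irrefl _ (key v v h)

theorem TT_eq (Q : QF) (i : Fin (vs Q).length) :
    pos Q.1 Q.2 (KK Q) 0 (fun _ => false) (nd Q i) = TT Q i := by
  have h := ok_get Q i
  unfold TT nd
  generalize (vs Q)[i] = z at h
  obtain ⟨a, i, b⟩ := z
  have ha : a < 8 := by
    simp only [okL, Bool.or_eq_true, Bool.and_eq_true, decide_eq_true_eq] at h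
    omega
  interval_cases a <;> simp [okL, dec, pos, tkL] at h ⊢ <;> simp_all

/-- the instance -/
def inst (Q : QF) : X :=
  ((vs Q).map (fun z => (vs Q).map (fun z' => edL Q z z')), (vs Q).map (tkL Q), true)

theorem code_eq (Q : QF) : code (EE Q) (TT Q) true = inst Q := by
  classical
  unfold code inst
  simp only [Prod.mk.injEq, and_true]
  constructor
  · apply List.ext_getElem
    · simp
    · intro i h1 h2
      rw [List.getElem_ofFn, List.getElem_map]
      apply List.ext_getElem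
      · simp
      · intro j h3 h4
        rw [List.getElem_ofFn, List.getElem_map]
        simp [EE]
  · apply List.ext_getElem
    · simp
    · intro i h1 h2
      rw [List.getElem_ofFn, List.getElem_map]
      rfl

theorem inst_iff {Q : QF} (hwf : QFwf Q) : evq Q.1 (fun u => evc u Q.2) = true ↔ NBDag (inst Q) := by
  rw [← code_eq, nbdag_code]
  have h1 : (6 * Q.1.length + Q.2.length + 3) * (4 * Q.1.length + 5) < KK Q := by
    unfold KK; omega
  rw [win_iff h1 hwf (fun _ => false)]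
  have h2 : Wins (EE Q) true (TT Q) ↔ Wins (Ed Q.1 Q.2 (KK Q)) true
      (pos Q.1 Q.2 (KK Q) 0 (fun _ => false)) :=
    wins_transfer (nd_inj Q) (EE_iff Q) (fun a b h => ed_range hwf h) (TT_eq Q)
  rw [← h2]
  exact ⟨fun h => ⟨EE_acyclic Q, h⟩, fun h => h.2⟩

/-! ### Polynomial time -/

theorem u_KK : UPoly (fun Q : QF => KK Q) := by
  have h1 : UPoly (fun Q : QF => Q.1.length) := UPoly.length (NPC.Poly.fst NPC.Poly.id)
  have h2 : UPoly (fun Q : QF => Q.2.length) := UPoly.length (NPC.Poly.snd NPC.Poly.id)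
  exact ((((UPoly.const 6).mul h1).add h2).add (UPoly.const 3)).mul
    (((UPoly.const 4).mul h1).add (UPoly.const 5)) |>.add (UPoly.const 1)

theorem poly_okL : NPC.Poly (fun p : QF × Lb => okL p.1 p.2) := by
  have h := u_KK.toPoly
  have h' : NPC.Poly (fun p : QF × Lb => KK p.1) := h.comp (NPC.Poly.fst NPC.Poly.id)
  unfold okL
  fun_prop

theorem poly_vs : NPC.Poly (fun Q : QF => vs Q) := by
  have h1 : NPC.Poly (fun Q : QF => List.range (KK Q + 1)) := (u_KK.add (UPoly.const 1)).range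
  have h2 : NPC.Poly (fun Q : QF => ((List.range 8) ×ˢ ((List.range (KK Q + 1)) ×ˢ
      [false, true]) : List Lb)) := by
    fun_prop
  unfold vs
  exact NPC.Poly.filter (p := fun Q z => okL Q z) h2 poly_okL

theorem poly_edL : NPC.Poly (fun p : QF × (Lb × Lb) => edL p.1 p.2.1 p.2.2) := by
  have h : NPC.Poly (fun p : QF × (Lb × Lb) =>
      decide ((p.2.1.2.2, p.2.1.2.1) ∈ p.1.2.getD p.2.2.2.1 [])) :=
    (NPC.Poly.decide_mem (f := fun p : QF × (Lb × Lb) => (p.2.1.2.2, p.2.1.2.1))
      (l := fun p => p.1.2.getD p.2.2.2.1 []) (by fun_prop) (by fun_prop)).congr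
        fun p => decide_eq_decide.2 Iff.rfl
  unfold edL
  fun_prop

theorem poly_tkL : NPC.Poly (fun p : QF × Lb => tkL p.1 p.2) := by
  unfold tkL
  fun_prop

theorem poly_inst : NPC.Poly inst := by
  have h1 : NPC.Poly (fun p : QF × Lb => vs p.1) := poly_vs.comp (NPC.Poly.fst NPC.Poly.id)
  unfold inst
  refine NPC.Poly.pair (NPC.Poly.map (F := fun (Q : QF) z => (vs Q).map (fun z' => edL Q z z'))
    poly_vs ?_) (NPC.Poly.pair (NPC.Poly.map (F := fun (Q : QF) z => tkL Q z) poly_vs poly_tkL)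
      (NPC.Poly.const true))
  refine NPC.Poly.map (F := fun (p : QF × Lb) z' => edL p.1 p.2 z') h1 ?_
  exact poly_edL.comp (f := fun p : (QF × Lb) × Lb => (p.1.1, (p.1.2, p.2))) (by fun_prop)

theorem nbdag_hard : PSPACEHard (lang NBDag) := by
  intro L hL
  obtain ⟨f, hf, hwf, hf'⟩ := qbf_hard hL
  refine ⟨fun x => bits (inst (f x)), polyTime_bits (poly_inst.comp hf), fun x => ?_⟩
  rw [hf' x, bits_mem_lang]
  exact inst_iff (hwf x)

end Pool.Agent.R538.NB
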